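import Pool.Agent.N904.AP.Basic

/-!
# Project AP: admissibility and the starting family (E1, E2)
-/

set_option autoImplicit false

open Set Filter Topology

namespace Pool.Agent.N639.APAdm

open Pool.Agent.N904.AP

/-- E1: admissibility. -/
theorem adm : StAdm := by
  intro 𝒜 hF
  obtain ⟨-, -, -, -, hok, hdis, -⟩ := hF
  refine ⟨fun a ha => (hok a ha).1, hdis, fun ε hε => ?_⟩
  obtain ⟨t, -, htf, htc⟩ :=
    (isCompact_closedBall (0 : ℂ) (100 / ε)).finite_cover_balls hε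
  refine (Set.Finite.biUnion htf (t := fun x => {a ∈ 𝒜 | ε ≤ rad a ∧ a.1 ∈ Metric.ball x ε})
    (fun x _ => Set.Subsingleton.finite ?_)).subset ?_
  · rintro a ⟨ha, hra, hax⟩ b ⟨hb, hrb, hbx⟩
    by_contra hab
    have h := hdis ha hb hab
    refine (Set.disjoint_left.1 h) (a := x) ?_ ?_
    · unfold Dk
      rw [Metric.mem_closedBall, dist_comm]
      exact (Metric.mem_ball.1 hax).le.trans hra
    · unfold Dk
      rw [Metric.mem_closedBall, dist_comm]
      exact (Metric.mem_ball.1 hbx).le.trans hrb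
  · rintro a ⟨ha, hra⟩
    have h1 := (hok a ha).2.2.1
    have h2 : ‖a.1‖ ≤ 100 / ε := by
      rw [le_div_iff₀ hε]
      have h3 : 0 ≤ ‖a.1‖ := norm_nonneg _
      nlinarith
    have h4 : a.1 ∈ Metric.closedBall (0 : ℂ) (100 / ε) := by
      rw [Metric.mem_closedBall, dist_zero_right]; exact h2
    obtain ⟨x, hx, hax⟩ := Set.mem_iUnion₂.1 (htc h4)
    exact Set.mem_iUnion₂.2 ⟨x, hx, ha, hra, hax⟩

theorem rad_one (N : ℂ) : rad (N, 1) = 1 := by
  unfold rad
  simp

/-- the integer matrix of the letter `(N, 1)` -/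
def matN (N : ℤ) : Matrix.SpecialLinearGroup (Fin 2) ℤ :=
  ⟨!![N, -N ^ 2 - 1; 1, -N], by rw [Matrix.det_fin_two_of]; ring⟩

theorem sg_int (h1 : StPack) (N : ℤ) : Sym (sg ((N : ℂ), 1)) := by
  have h2 := h1.2.2 (matN N)
  have h3 : (((matN N).map (Int.castRingHom ℂ) : Matrix.SpecialLinearGroup (Fin 2) ℂ) : GLC)
      = sgM ((N : ℂ), 1) one_ne_zero := by
    apply Matrix.GeneralLinearGroup.ext
    intro i j
    have e : (((matN N).map (Int.castRingHom ℂ) : Matrix.SpecialLinearGroup (Fin 2) ℂ) : GLC) i j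
        = (((matN N) i j : ℤ) : ℂ) := rfl
    rw [e]
    fin_cases i <;> fin_cases j
    · show (((N : ℤ)) : ℂ) = (N : ℂ)
      rfl
    · show (((-N ^ 2 - 1 : ℤ)) : ℂ) = -(N : ℂ) ^ 2 - 1
      push_cast; ring
    · show (((1 : ℤ)) : ℂ) = (1 : ℂ)
      norm_num
    · show (((-N : ℤ)) : ℂ) = -(N : ℂ)
      push_cast; ring
  have h4 : (fun z : OnePoint ℂ =>
      (((matN N).map (Int.castRingHom ℂ) : Matrix.SpecialLinearGroup (Fin 2) ℂ) : GLC) • z)
      = sg ((N : ℂ), 1) := by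
    funext z
    rw [h3, sgM_smul]
  rw [h4] at h2
  exact h2

theorem letter_int (h1 : StPack) (N : ℤ) (hN : ‖(N : ℂ)‖ ≤ 99) : LetterOk ((N : ℂ), 1) := by
  refine ⟨one_ne_zero, (rad_one _).le, ?_, sg_int h1 N, (N : ℂ) - Complex.I, ?_, ?_⟩
  · rw [rad_one]
    show 1 * (1 + ‖(N : ℂ)‖) ≤ 100
    linarith
  · rw [rad_one]
    show ‖(N : ℂ) - Complex.I - (N : ℂ)‖ = 1
    have : (N : ℂ) - Complex.I - (N : ℂ) = -Complex.I := by ring
    rw [this, norm_neg, Complex.norm_I]
  · apply h1.1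
    simp

theorem dk_disj (M N : ℂ) (h : 2 < ‖M - N‖) : Disjoint (Dk (M, 1)) (Dk (N, 1)) := by
  unfold Dk
  rw [rad_one, rad_one]
  apply Metric.closedBall_disjoint_closedBall
  rw [dist_eq_norm]
  show 1 + 1 < ‖M - N‖
  linarith

theorem dk_kk (h2 : StKK) (N : ℂ) (h : 8 < ‖N‖) : Disjoint (up (Dk (N, 1))) KK := by
  rw [Set.disjoint_left]
  rintro x ⟨w, hw, rfl⟩ hx
  obtain ⟨v, hv, hv7⟩ := h2.2 _ hx
  have e : w = v := OnePoint.coe_injective hv
  subst e
  unfold Dk at hw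
  rw [rad_one, Metric.mem_closedBall, dist_eq_norm] at hw
  have h3 : ‖N‖ ≤ ‖w‖ + ‖w - N‖ := by
    have := norm_sub_le w (w - N)
    rwa [sub_sub_cancel] at this
  have hw' : ‖w - N‖ ≤ 1 := hw
  linarith

theorem g1_eq : g1 = (((-2 : ℤ) : ℂ), 1) := by unfold g1; norm_num
theorem g2_eq : g2 = (((2 : ℤ) : ℂ), 1) := by unfold g2; norm_num
theorem g3_eq : g3 = (((10 : ℤ) : ℂ), 1) := by unfold g3; norm_num
theorem g4_eq : g4 = (((20 : ℤ) : ℂ), 1) := by unfold g4; norm_num

/-- E2: the starting family. -/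
theorem start_of (h1 : StPack) (h2 : StKK) : StStart := by
  unfold StStart Fam
  refine ⟨by simp, by simp, by simp, by simp, ?_, ?_, ?_⟩
  · rintro a (rfl | rfl | rfl | rfl)
    · rw [g1_eq]; exact letter_int h1 _ (by norm_num)
    · rw [g2_eq]; exact letter_int h1 _ (by norm_num)
    · rw [g3_eq]; exact letter_int h1 _ (by norm_num)
    · rw [g4_eq]; exact letter_int h1 _ (by norm_num)
  · have key : ∀ M N : ℂ, 2 < ‖M - N‖ → Disjoint (Dk (M, 1)) (Dk (N, 1)) := dk_disj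
    have n12 : (2 : ℝ) < ‖(-2 : ℂ) - 2‖ := by
      have : (-2 : ℂ) - 2 = -4 := by norm_num
      rw [this, norm_neg]; norm_num
    have n13 : (2 : ℝ) < ‖(-2 : ℂ) - 10‖ := by
      have : (-2 : ℂ) - 10 = -12 := by norm_num
      rw [this, norm_neg]; norm_num
    have n14 : (2 : ℝ) < ‖(-2 : ℂ) - 20‖ := by
      have : (-2 : ℂ) - 20 = -22 := by norm_num
      rw [this, norm_neg]; norm_num
    have n23 : (2 : ℝ) < ‖(2 : ℂ) - 10‖ := by
      have : (2 : ℂ) - 10 = -8 := by norm_num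
      rw [this, norm_neg]; norm_num
    have n24 : (2 : ℝ) < ‖(2 : ℂ) - 20‖ := by
      have : (2 : ℂ) - 20 = -18 := by norm_num
      rw [this, norm_neg]; norm_num
    have n34 : (2 : ℝ) < ‖(10 : ℂ) - 20‖ := by
      have : (10 : ℂ) - 20 = -10 := by norm_num
      rw [this, norm_neg]; norm_num
    rintro a (rfl | rfl | rfl | rfl) b (rfl | rfl | rfl | rfl) hab
    · exact absurd rfl hab
    · exact key _ _ n12
    · exact key _ _ n13
    · exact key _ _ n14
    · exact (key _ _ n12).symm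
    · exact absurd rfl hab
    · exact key _ _ n23
    · exact key _ _ n24
    · exact (key _ _ n13).symm
    · exact (key _ _ n23).symm
    · exact absurd rfl hab
    · exact key _ _ n34
    · exact (key _ _ n14).symm
    · exact (key _ _ n24).symm
    · exact (key _ _ n34).symm
    · exact absurd rfl hab
  · rintro a (rfl | rfl | rfl | rfl)
    · exact Or.inl rfl
    · exact Or.inr (Or.inl rfl)
    · exact Or.inr (Or.inr (dk_kk h2 10 (by norm_num)))
    · exact Or.inr (Or.inr (dk_kk h2 20 (by norm_num)))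

end Pool.Agent.N639.APAdm
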